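import Pool.Agent.helper29.JZ.Spec

set_option autoImplicit false

open Finset Polynomial Module

namespace Pool.Agent.helper10.JZ

open Pool.Agent.helper29.JZ

lemma inj_PA {h h' : ℕ} (M : Finset (Fin h × Fin h')) {z z' : Fin h × Fin h'} (hz : z ∈ PA M)
    (hz' : z' ∈ PA M) (e : z.1 = z'.1) : z = z' := by
  unfold PA at hz hz'
  rw [Finset.mem_filter] at hz hz'
  obtain ⟨w, hw⟩ := Finset.card_eq_one.mp (show (M.filter fun y => y.1 = z.1).card = 1 from hz.2)
  have h1 : z ∈ M.filter fun y => y.1 = z.1 := by simp [hz.1]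
  have h2 : z' ∈ M.filter fun y => y.1 = z.1 := by simp [hz'.1, e]
  rw [hw, Finset.mem_singleton] at h1 h2
  rw [h1, h2]

theorem jz_CRS : CRS_stmt := by
  classical
  intro h h' x y M P Q P₂ Q₂ hx hlt
  have hsub1 : HC x y M P Q ⊆ PA M := by unfold HC; exact Finset.filter_subset _ _
  have hsub2 : HC x y M P₂ Q₂ ⊆ PA M := by unfold HC; exact Finset.filter_subset _ _
  have hU : (HC x y M P Q ∪ HC x y M P₂ Q₂).card ≤ (PA M).card :=
    Finset.card_le_card (Finset.union_subset hsub1 hsub2)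
  have hUI := Finset.card_union_add_card_inter (HC x y M P Q) (HC x y M P₂ Q₂)
  have hcard : ((HC x y M P Q ∩ HC x y M P₂ Q₂).image Prod.fst).card
      = (HC x y M P Q ∩ HC x y M P₂ Q₂).card := by
    apply Finset.card_image_of_injOn
    intro z hz z' hz' e
    rw [Finset.mem_coe, Finset.mem_inter] at hz hz'
    exact inj_PA M (hsub1 hz.1) (hsub1 hz'.1) e
  refine FP97.cross_eq_zero hx (le_max_left P.natDegree Q.natDegree) (le_max_right _ _)
    (le_max_left P₂.natDegree Q₂.natDegree) (le_max_right _ _)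
    ((HC x y M P Q ∩ HC x y M P₂ Q₂).image Prod.fst) (by omega) ?_
  intro k hk
  rw [Finset.mem_image] at hk
  obtain ⟨z, hz, rfl⟩ := hk
  rw [Finset.mem_inter] at hz
  unfold HC at hz
  rw [Finset.mem_filter, Finset.mem_filter] at hz
  exact ⟨y z.2, by rw [← hz.1.2]; ring, by rw [← hz.2.2]; ring⟩

end Pool.Agent.helper10.JZ
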